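import Pool.Agent.Helper26.PL.ML
import Pool.Agent.Helper85.PL.DS
import Pool.Agent.Helper59.PL.DS1
import Pool.Agent.Helper14.PL.T1
import Pool.Agent.Helper95.PL.STR
import Pool.Agent.Helper78.PL.CLM
import Pool.Agent.Helper6.PL.BGP
import Pool.Agent.Helper9.PL.BDR

set_option autoImplicit false

/-! The common rows of the game part, with no hypotheses left. -/

namespace Pool.Agent.Helper33.PL

open Pool.Agent.Helper33.DP

theorem t1 : ST_T1 :=
  Pool.Agent.Helper14.PL.T1 Pool.Agent.Helper26.PL.ML Pool.Agent.Helper59.PL.DS1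
    Pool.Agent.Helper85.PL.DS2 Pool.Agent.Helper85.PL.DS3 Pool.Agent.Helper85.PL.DS4

theorem str : ST_STR := Pool.Agent.Helper95.PL.STR

theorem clm : ST_CLM := Pool.Agent.Helper78.PL.CLM Pool.Agent.Helper59.PL.DS1

theorem bgp : ST_BGP := Pool.Agent.Helper6.PL.BGP Pool.Agent.Helper59.PL.DS1

theorem bdr : ST_BDR := Pool.Agent.Helper9.PL.BDR

end Pool.Agent.Helper33.PL
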