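import Pool.Agent.Helper33.DP3.Sheet

set_option autoImplicit false

namespace Pool.Agent.Helper33.PL

open Finset Pool.Agent.Helper33.DP Pool.Agent.Helper33.DP3

/-- The strategy theorem from the cases. -/
theorem S3 (hSTR : ST_STR) (hGB : ST_GB3) (hA : ST_A3) (hB : ST_B3) (hBT : ST_BT3) (hC : ST_C3)
    (hSt : ST_START3) : ST_S3 := by
  intro w hw
  refine ⟨fun G μ => Good3 G μ, ⟨⟨3 * w ^ 4, by ring, hSt w hw⟩, ?_, ?_⟩⟩
  · intro G μ hG hμ a b hab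
    exact (hGB w G μ hw hG hμ).1 a b hab
  · intro G G₁ G₂ μ hG hG₁ hG₂ hc hμ
    obtain ⟨⟨h1, -⟩, ⟨h2, -⟩⟩ := hSTR w G G₁ G₂ hG₁ hG₂ hc
    have key : StepC3 G₁ G₂ μ := by
      rcases h1.lt_or_eq with h1 | h1 <;> rcases h2.lt_or_eq with h2 | h2
      · exact hA w G G₁ G₂ μ hw hG hG₁ hG₂ hc hμ h1 h2
      · exact hBT w G G₁ G₂ μ hw hG hG₁ hG₂ hc hμ h1 h2
      · exact hB w G G₁ G₂ μ hw hG hG₁ hG₂ hc hμ h1 h2
      · exact hC w G G₁ G₂ μ hw hG hG₁ hG₂ hc hμ h1 h2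
    exact key

end Pool.Agent.Helper33.PL
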