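import Pool.Agent.Helper33.PL.Order
import Pool.Agent.Helper33.PL.Base
import Pool.Agent.Helper33.PL.S3
import Pool.Agent.Helper72.PL.A3
import Pool.Agent.Helper72.PL.FINAL3
import Pool.Agent.Helper59.PL.B3
import Pool.Agent.Helper59.PL.RND
import Pool.Agent.Helper95.PL.BB
import Pool.Agent.Helper95.PL.LR
import Pool.Agent.Helper6.PL.C3
import Pool.Agent.Helper31.PL.CR3
import Pool.Agent.Helper75.PL.GB3
import Pool.Agent.Helper78.PL.GT3
import Pool.Agent.Helper2.PL.PEX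

set_option autoImplicit false

/-! The polynomial bound, with no hypotheses left. -/

namespace Pool.Agent.Helper33.PL

open Pool.Agent.Helper33.DP Pool.Agent.Helper33.DP3

theorem gb3 : ST_GB3 := Pool.Agent.Helper75.PL.GB3 bdr Pool.Agent.Helper95.PL.BB3

theorem a3 : ST_A3 := Pool.Agent.Helper72.PL.A3 t1 Pool.Agent.Helper59.PL.RND3 bdr gb3

theorem pex3 : ST_PEX3 :=
  Pool.Agent.Helper2.PL.PEX3 Pool.Agent.Helper26.PL.ML Pool.Agent.Helper85.PL.DS3
    Pool.Agent.Helper85.PL.DS4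

theorem b3 : ST_B3 :=
  Pool.Agent.Helper59.PL.B3 str Pool.Agent.Helper95.PL.LR Pool.Agent.Helper95.PL.BB1
    Pool.Agent.Helper95.PL.BB2 pex3 clm bgp bdr gb3

theorem bt3 : ST_BT3 := Pool.Agent.Helper78.PL.BT3 b3

theorem c3 : ST_C3 :=
  Pool.Agent.Helper6.PL.C3 Pool.Agent.Helper59.PL.DS1 str Pool.Agent.Helper95.PL.LR
    Pool.Agent.Helper31.PL.CR3 Pool.Agent.Helper95.PL.BB2

/-- The strategy theorem. -/
theorem s3 : ST_S3 := S3 str gb3 a3 b3 bt3 c3 Pool.Agent.Helper75.PL.START3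

/-- The polynomial bound. -/
theorem final3 : ST_FINAL3 := Pool.Agent.Helper72.PL.FINAL3 s3 split partB

end Pool.Agent.Helper33.PL
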