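import Pool.Agent.Helper26.PL.PARTA
import Pool.Agent.Helper55.PL.SRCH
import Pool.Agent.Helper55.PL.BQT
import Pool.Agent.Helper75.PL.CORE
import Pool.Agent.Helper57.PL.BETW
import Pool.Agent.Helper52.PL.NAM
import Pool.Agent.Helper52.PL.PA13
import Pool.Agent.Helper92.PL.PA1b
import Pool.Agent.Helper92.PL.PA2
import Pool.Agent.Helper83.PL.PA4a
import Pool.Agent.Helper27.PL.PA4b
import Pool.Agent.Helper26.PL.PA5
import Pool.Agent.Helper22.PL.PARTB
import Pool.Agent.Helper29.PL.SPLIT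
import Pool.Agent.Helper72.PL.FINAL

set_option autoImplicit false

/-! The order part of the polynomial bound, with no hypotheses left. -/

namespace Pool.Agent.Helper33.PL

open Pool.Agent.Helper33.DP

theorem partA : ST_PARTA :=
  Pool.Agent.Helper26.PL.PARTA Pool.Agent.Helper55.PL.SRCH Pool.Agent.Helper75.PL.CORE
    Pool.Agent.Helper52.PL.PA1a
    (Pool.Agent.Helper92.PL.PA1b Pool.Agent.Helper75.PL.CORE Pool.Agent.Helper57.PL.BETW
      Pool.Agent.Helper52.PL.NAM)
    Pool.Agent.Helper92.PL.PA2 Pool.Agent.Helper52.PL.PA3 Pool.Agent.Helper83.PL.PA4a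
    Pool.Agent.Helper27.PL.PA4b Pool.Agent.Helper26.PL.PA5

theorem partB : ST_PARTB := Pool.Agent.Helper22.PL.PARTB partA

theorem split : ST_SPLIT := Pool.Agent.Helper29.PL.SPLIT Pool.Agent.Helper55.PL.BQT

end Pool.Agent.Helper33.PL
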