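import Pool.Agent.Helper33.DP.Sheet

set_option autoImplicit false

namespace Pool.Agent.Helper33.PL

open Finset Pool.Agent.Helper33.DP

/-- The strategy theorem from the cases. -/
theorem S (hSTR : ST_STR) (hGB : ST_GB) (hA : ST_A) (hB : ST_B) (hBT : ST_BT) (hC : ST_C)
    (hSt : ST_START) : ST_S := by
  intro w hw
  refine ⟨fun G μ => GoodS G μ, ⟨⟨8192 * w ^ 12, by ring, hSt w hw⟩, ?_, ?_⟩⟩
  · intro G μ hG hμ a b hab
    exact (hGB w G μ hw hG hμ).1 a b hab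
  · intro G G₁ G₂ μ hG hG₁ hG₂ hc hμ
    obtain ⟨⟨h1, -⟩, ⟨h2, -⟩⟩ := hSTR w G G₁ G₂ hG₁ hG₂ hc
    have key : StepC G₁ G₂ μ := by
      rcases h1.lt_or_eq with h1 | h1 <;> rcases h2.lt_or_eq with h2 | h2
      · exact hA w G G₁ G₂ μ hw hG hG₁ hG₂ hc hμ h1 h2
      · exact hBT w G G₁ G₂ μ hw hG hG₁ hG₂ hc hμ h1 h2
      · exact hB w G G₁ G₂ μ hw hG hG₁ hG₂ hc hμ h1 h2
      · exact hC w G G₁ G₂ μ hw hG hG₁ hG₂ hc hμ h1 h2
    exact key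

end Pool.Agent.Helper33.PL
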